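import Pool.Agent.WIR.StmtsB

/-!
# WIR row GCH (a tail of the binomial distribution)
-/

set_option autoImplicit false

open scoped BigOperators

namespace Pool.Agent.WIR.H10

theorem gch (hHoe : HoeStmt) : GchStmt := by
  intro s
  rcases Nat.eq_zero_or_pos s with hs | hs
  · subst hs
    rw [Finset.filter_false_of_mem, Finset.sum_empty]
    · positivity
    · intro r hr
      rw [Finset.mem_range] at hr
      have : r = 0 := by omega
      subst this
      norm_num
  have hs' : (0 : ℝ) < s := by exact_mod_cast hs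
  obtain ⟨h1, -⟩ := hHoe s (24 / 100 * s + 36) hs (by positivity)
  have h2 : ∑ r ∈ (Finset.range (s + 1)).filter (fun r => 31 * s + 900 < 100 * (r / 2)),
      (s.choose r : ℝ) ≤ ∑ r ∈ (Finset.range (s + 1)).filter
        (fun r : ℕ => (24 / 100 * (s : ℝ) + 36) ≤ 2 * (r : ℝ) - s), (s.choose r : ℝ) := by
    refine Finset.sum_le_sum_of_subset_of_nonneg ?_ (fun r _ _ => by positivity)
    intro r hr
    rw [Finset.mem_filter] at hr ⊢
    refine ⟨hr.1, ?_⟩
    have h3 : 31 * s + 900 < 50 * r := by omega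
    have h4 : 31 * (s : ℝ) + 900 < 50 * r := by exact_mod_cast h3
    linarith
  refine (h2.trans h1).trans ?_
  have h5 : (17 : ℝ) ≤ (24 / 100 * (s : ℝ) + 36) ^ 2 / (2 * s) := by
    rw [le_div_iff₀ (by positivity)]
    nlinarith [sq_nonneg (24 / 100 * (s : ℝ) - 36)]
  have h6 : Real.exp (-((24 / 100 * (s : ℝ) + 36) ^ 2 / (2 * s))) ≤ 1 / 10 := by
    have h7 : Real.exp (-((24 / 100 * (s : ℝ) + 36) ^ 2 / (2 * s))) ≤ Real.exp (-17) :=
      Real.exp_le_exp.mpr (by linarith)
    have h8 : (18 : ℝ) ≤ Real.exp 17 := by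
      have := Real.add_one_le_exp (17 : ℝ)
      linarith
    rw [Real.exp_neg 17] at h7
    refine h7.trans ?_
    rw [inv_le_comm₀ (by positivity) (by norm_num)]
    norm_num
    linarith
  have h9 : (0 : ℝ) < 2 ^ s := by positivity
  calc (2 : ℝ) ^ s * Real.exp (-((24 / 100 * (s : ℝ) + 36) ^ 2 / (2 * s)))
      ≤ 2 ^ s * (1 / 10) := mul_le_mul_of_nonneg_left h6 h9.le
    _ = 2 ^ s / 10 := by ring

end Pool.Agent.WIR.H10
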