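import Pool.Agent.WIR.StmtsA

/-!
# WIR row TCV (every black point has a corner)
-/

set_option autoImplicit false

namespace Pool.Agent.WIR.H10

theorem tcv_small (N : ℕ) (m : ℤ) (h : |(m : ℝ)| ≤ eps * 3 ^ N) : 18 * |m| < 3 ^ N := by
  have h3 : (0 : ℝ) < 3 ^ N := by positivity
  have he : 18 * eps < 1 := by unfold eps; norm_num
  have h1 : (18 : ℝ) * |(m : ℝ)| < 3 ^ N := by nlinarith
  exact_mod_cast h1

theorem tcv (hTnz : TnzStmt) (hTmv : TmvStmt) (hTdv : TdvStmt) : TcvStmt := by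
  intro N t ξ h j l hξ hth hb
  have h2 : ∀ j, ∀ ls, bk N t ξ h j ls → Odd (mm N t ξ j ls) → ∃ js, (js, ls) ∈ Cor N t ξ h ∧
      js ≤ j ∧ mm N t ξ j ls = 9 ^ (j - js) * mm N t ξ js ls := by
    intro j
    induction j with
    | zero => intro ls hb; exact absurd hb.1 (by omega)
    | succ j ih =>
      intro ls hb hodd
      by_cases hc : j + 1 = 1 ∨ ¬ bk N t ξ h j ls
      · exact ⟨j + 1, ⟨hb, hodd, hc⟩, le_rfl, by simp⟩
      · rw [not_or, not_not] at hc
        obtain ⟨-, hc2⟩ := hc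
        have hs := tcv_small N _ hc2.2.2
        have h1 := hTmv N t ξ j ls 1 0 hc2.1 (by simpa using hs)
        have h1' : mm N t ξ (j + 1) ls = 9 * mm N t ξ j ls := by simpa using h1
        have hodd' : Odd (mm N t ξ j ls) := by
          rw [h1'] at hodd
          exact (Int.odd_mul.mp hodd).2
        obtain ⟨js, h4, h5, h6⟩ := ih ls hc2 hodd'
        refine ⟨js, h4, by omega, ?_⟩
        rw [h1', h6, show j + 1 - js = (j - js) + 1 by omega, pow_succ]
        ring
  obtain ⟨hj1, hjh, hbk⟩ := hb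
  have he : t + 2 * j - 2 < N := by omega
  have hm := ((hTnz N t ξ j l hξ hj1).1 he).1
  obtain ⟨v, m', hm', hv⟩ := Nat.exists_eq_two_pow_mul_odd (Int.natAbs_ne_zero.mpr hm)
  obtain ⟨z, hz, hzo⟩ : ∃ z : ℤ, mm N t ξ j l = 2 ^ v * z ∧ Odd z := by
    refine ⟨(mm N t ξ j l).sign * m', ?_, ?_⟩
    · have := Int.sign_mul_natAbs (mm N t ξ j l)
      rw [hv] at this
      push_cast at this
      linarith
    · refine Int.odd_mul.mpr ⟨?_, by exact_mod_cast hm'⟩
      rcases lt_or_gt_of_ne hm with h0 | h0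
      · rw [Int.sign_eq_neg_one_of_neg h0]; exact odd_neg_one
      · rw [Int.sign_eq_one_of_pos h0]; exact odd_one
  have hzm : |z| ≤ |mm N t ξ j l| := by
    rw [hz, abs_mul, abs_pow]
    have : (1 : ℤ) ≤ |2| ^ v := one_le_pow₀ (by norm_num)
    nlinarith [abs_nonneg z]
  have hs := tcv_small N _ hbk
  have h7 := hTdv N t ξ j l v z (by have := abs_nonneg z; linarith) hz
  have h8 : bk N t ξ h j (l + v) := by
    refine ⟨hj1, hjh, ?_⟩
    rw [h7]
    have : |(z : ℝ)| ≤ |(mm N t ξ j l : ℝ)| := by exact_mod_cast hzm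
    exact this.trans hbk
  obtain ⟨js, h9, h10, h11⟩ := h2 j (l + v) h8 (by rw [h7]; exact hzo)
  refine ⟨(js, l + v), h9, h10, by simp, ?_⟩
  simp only [Nat.add_sub_cancel_left]
  rw [hz, ← h7, h11]
  ring

end Pool.Agent.WIR.H10
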